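import Pool.Agent.Q229.Base

/-!
# Three pairwise far-apart A–Z paths: definitions
-/

set_option autoImplicit false

namespace Q229.MM

open Pool.Agent.NPC Pool.Agent.H622R2

/-- The walk `p` is an `A`–`Z` path: it is a path, its first vertex is its only vertex in `A`, and
its last vertex is its only vertex in `Z`. -/
def IsAZPath {V : Type} {G : SimpleGraph V} (A Z : Set V) {u v : V} (p : G.Walk u v) : Prop :=
  p.IsPath ∧ (∀ x ∈ p.support, x ∈ A ↔ x = u) ∧ ∀ x ∈ p.support, x ∈ Z ↔ x = v

/-- There are three `A`–`Z` paths with pairwise distance at least `3` in `G`. -/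
def ThreeFarPaths {V : Type} (G : SimpleGraph V) (A Z : Set V) : Prop :=
  ∃ (u v : Fin 3 → V) (p : ∀ i, G.Walk (u i) (v i)), (∀ i, IsAZPath A Z (p i)) ∧
    ∀ i j, i ≠ j → ∀ x ∈ (p i).support, ∀ y ∈ (p j).support, 3 ≤ G.edist x y

/-- The decision problem `MM3`; the sets are given by their characteristic vectors. -/
def MM3 (I : List (List Bool) × (List Bool × List Bool)) : Prop :=
  ThreeFarPaths (matGraph I.1) {i | I.2.1.getD i.1 false = true} {i | I.2.2.getD i.1 false = true}

section Basic

variable {V : Type} {G : SimpleGraph V}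

/-- Two vertices are far apart iff they are distinct, not adjacent, and without a common
neighbour. -/
theorem three_le_edist_iff (x y : V) :
    3 ≤ G.edist x y ↔ x ≠ y ∧ ¬ G.Adj x y ∧ ∀ z, ¬ (G.Adj x z ∧ G.Adj z y) := by
  constructor
  · intro h
    refine ⟨?_, ?_, ?_⟩
    · rintro rfl
      rw [SimpleGraph.edist_self] at h
      exact absurd h (by norm_num)
    · intro h1
      have h2 := (SimpleGraph.Walk.cons h1 SimpleGraph.Walk.nil).edist_le
      have h3 := h.trans h2
      norm_num at h3
    · rintro z ⟨h1, h2⟩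
      have h3 := (SimpleGraph.Walk.cons h1 (SimpleGraph.Walk.cons h2
        SimpleGraph.Walk.nil)).edist_le
      have h4 := h.trans h3
      norm_num at h4
  · rintro ⟨h1, h2, h3⟩
    by_contra h4
    rw [not_le] at h4
    have h5 : G.Reachable x y := by
      rw [← SimpleGraph.edist_ne_top_iff_reachable]
      exact ne_top_of_lt h4
    obtain ⟨p, hp⟩ := h5.exists_walk_length_eq_edist
    rw [← hp] at h4
    have h6 : p.length < 3 := by exact_mod_cast h4
    rcases p with _ | ⟨a, _ | ⟨b, _ | ⟨c, q⟩⟩⟩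
    · exact h1 rfl
    · exact h2 a
    · exact h3 _ ⟨a, b⟩
    · simp only [SimpleGraph.Walk.length_cons] at h6
      omega

/-- A set that contains the first vertex of a walk and is closed under going to neighbours on the
walk contains the walk. -/
theorem support_subset_of_closed {u v : V} (p : G.Walk u v) (S : Set V) (hu : u ∈ S)
    (h : ∀ x ∈ S, ∀ y ∈ p.support, G.Adj x y → y ∈ S) : ∀ x ∈ p.support, x ∈ S := by
  induction p with
  | nil => simpa using hu
  | cons a q ih =>
    intro x hx
    rw [SimpleGraph.Walk.support_cons, List.mem_cons] at hx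
    rcases hx with rfl | hx
    · exact hu
    · refine ih (h _ hu _ ?_ a) ?_ x hx
      · rw [SimpleGraph.Walk.support_cons]
        exact List.mem_cons_of_mem _ q.start_mem_support
      · intro x hx y hy
        exact h x hx y (by
          rw [SimpleGraph.Walk.support_cons]
          exact List.mem_cons_of_mem _ hy)

/-- A chain of steps inside a set gives a walk inside the set. -/
theorem exists_walk_chain (S : Set V) (f : ℕ → V) (n : ℕ) (h0 : f 0 ∈ S)
    (h : ∀ k < n, ∃ p : G.Walk (f k) (f (k + 1)), ∀ x ∈ p.support, x ∈ S) :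
    ∃ p : G.Walk (f 0) (f n), ∀ x ∈ p.support, x ∈ S := by
  induction n with
  | zero => exact ⟨SimpleGraph.Walk.nil, by simpa using h0⟩
  | succ n ih =>
    obtain ⟨p, hp⟩ := ih fun k hk => h k (by omega)
    obtain ⟨q, hq⟩ := h n (by omega)
    refine ⟨p.append q, fun x hx => ?_⟩
    rw [SimpleGraph.Walk.mem_support_append_iff] at hx
    exact hx.elim (hp x) (hq x)

theorem ThreeFarPaths.map {W : Type} {H : SimpleGraph W} {A Z : Set V} {B Y : Set W} (e : G ≃g H)
    (hA : ∀ x, x ∈ A ↔ e x ∈ B) (hZ : ∀ x, x ∈ Z ↔ e x ∈ Y) (h : ThreeFarPaths G A Z) :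
    ThreeFarPaths H B Y := by
  obtain ⟨u, v, p, h1, h2⟩ := h
  have hed : ∀ x y, 3 ≤ G.edist x y ↔ 3 ≤ H.edist (e x) (e y) := by
    intro x y
    rw [three_le_edist_iff, three_le_edist_iff]
    refine and_congr (not_congr e.injective.eq_iff.symm) (and_congr
      (not_congr (e.map_adj_iff).symm) ?_)
    constructor
    · intro h3 z h4
      obtain ⟨z, rfl⟩ := e.surjective z
      rw [e.map_adj_iff, e.map_adj_iff] at h4
      exact h3 z h4
    · intro h3 z h4
      exact h3 (e z) (by rwa [e.map_adj_iff, e.map_adj_iff])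
  refine ⟨fun i => e (u i), fun i => e (v i), fun i => (p i).map e.toHom, fun i => ?_, ?_⟩
  · obtain ⟨h3, h4, h5⟩ := h1 i
    refine ⟨SimpleGraph.Walk.IsPath.map e.injective h3, ?_, ?_⟩
    · intro x hx
      rw [SimpleGraph.Walk.support_map, List.mem_map] at hx
      obtain ⟨y, hy, rfl⟩ := hx
      exact (hA y).symm.trans ((h4 y hy).trans e.injective.eq_iff.symm)
    · intro x hx
      rw [SimpleGraph.Walk.support_map, List.mem_map] at hx
      obtain ⟨y, hy, rfl⟩ := hx
      exact (hZ y).symm.trans ((h5 y hy).trans e.injective.eq_iff.symm)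
  · intro i j hij x hx y hy
    rw [SimpleGraph.Walk.support_map, List.mem_map] at hx hy
    obtain ⟨x, hx, rfl⟩ := hx
    obtain ⟨y, hy, rfl⟩ := hy
    exact (hed x y).1 (h2 i j hij x hx y hy)

theorem threeFarPaths_iff {W : Type} {H : SimpleGraph W} {A Z : Set V} {B Y : Set W} (e : G ≃g H)
    (hA : ∀ x, x ∈ A ↔ e x ∈ B) (hZ : ∀ x, x ∈ Z ↔ e x ∈ Y) :
    ThreeFarPaths G A Z ↔ ThreeFarPaths H B Y := by
  refine ⟨ThreeFarPaths.map e hA hZ, ThreeFarPaths.map e.symm ?_ ?_⟩
  · intro x
    rw [hA, RelIso.apply_symm_apply]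
  · intro x
    rw [hZ, RelIso.apply_symm_apply]

end Basic

end Q229.MM
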