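import Pool.Agent.Q229.MM.Mem
import Pool.Agent.NPC.Classes

/-!
# Deciding whether there are three A–Z paths at pairwise distance at least three is NP-complete

The reduction is from exactly-one-in-three satisfiability.  There are three tracks from `A` to `Z`.
The first one consists of a choice between two vertices for each variable, the second one of a
choice between three vertices (which literal is true) for each clause, and the third one is a path
with a middle vertex `p`.  For every conflict between a value of a variable and a choice for a
clause there is a vertex `w` adjacent to the two corresponding vertices, so that they are at
distance two, and all the vertices `w` are adjacent to a vertex `y` adjacent to `p`.  One of the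
three paths is the third track, and it prevents the others from using `y` and the vertices `w`, so
that they run in the first and in the second track.
-/

set_option autoImplicit false

namespace Q229.MM.Final

open Pool.Agent.NPC Pool.Agent.H622R2 Q229.MM

/-- **MM3 is NP-complete**: it is in `NP`, and every language in `NP` has a polynomial-time many-one
reduction to it.  It is in `P` if and only if `P = NP`. -/
theorem result :
    InNPP MM3 ∧ NPHardP MM3 ∧ (InPP MM3 ↔ ∀ L : Set (List Bool), InNP L → InP L) :=
  ⟨inNPP, hardI.toNPHardP,
    ⟨fun h => NPHard.collapse hardI.toNPHardP h, fun h => h _ inNPP⟩⟩

end Q229.MM.Final
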