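import Pool.Agent.Q229.MM.Defs

/-!
# Three pairwise far-apart A–Z paths: the graph of the reduction
-/

set_option autoImplicit false

namespace Q229.MM

/-- The vertices. -/
inductive Vx (N m : ℕ) : Type
  | c (x : Fin N) (a : Bool)
  | s (x : Fin (N + 1))
  | o (i : Fin m) (r : Fin 3)
  | t (i : Fin (m + 1))
  | w (x : Fin N) (a : Bool) (i : Fin m) (r : Fin 3)
  | y
  | p
  | a
  | z
  deriving DecidableEq

/-- The edges, in one direction. -/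
def E {N m : ℕ} (conf : Fin N → Bool → Fin m → Fin 3 → Bool) : Vx N m → Vx N m → Prop
  | .s x, .c x' _ => x.1 = x'.1 ∨ x.1 = x'.1 + 1
  | .t i, .o i' _ => i.1 = i'.1 ∨ i.1 = i'.1 + 1
  | .c x a, .w x' a' _ _ => x = x' ∧ a = a'
  | .o i r, .w x a i' r' => i = i' ∧ r = r' ∧ conf x a i r = true
  | .w _ _ _ _, .y => True
  | .y, .p => True
  | .p, .a => True
  | .p, .z => True
  | _, _ => False

variable {N m : ℕ} {conf : Fin N → Bool → Fin m → Fin 3 → Bool}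

/-- The graph. -/
def Gr (conf : Fin N → Bool → Fin m → Fin 3 → Bool) : SimpleGraph (Vx N m) where
  Adj u v := E conf u v ∨ E conf v u
  symm := ⟨fun _ _ h => h.symm⟩
  loopless := ⟨fun x h => by cases x <;> simp [E] at h⟩

/-- The first vertices. -/
def SA : Set (Vx N m) := {x | x = .s 0 ∨ x = .t 0 ∨ x = .a}

/-- The last vertices. -/
def SZ : Set (Vx N m) := {x | x = .s (Fin.last N) ∨ x = .t (Fin.last m) ∨ x = .z}

/-- The first track. -/
def T1 : Set (Vx N m) := {x | (∃ i, x = .s i) ∨ ∃ i a, x = .c i a}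

/-- The second track. -/
def T2 : Set (Vx N m) := {x | (∃ i, x = .t i) ∨ ∃ i r, x = .o i r}

/-- The third track. -/
def T3 : Set (Vx N m) := {x | x = .a ∨ x = .p ∨ x = .z}

/-- The vertices used for an assignment. -/
def U1 (τ : Fin N → Bool) : Set (Vx N m) := {x | (∃ i, x = .s i) ∨ ∃ i, x = .c i (τ i)}

/-- The vertices used for a choice of literals. -/
def U2 (ρ : Fin m → Fin 3) : Set (Vx N m) := {x | (∃ i, x = .t i) ∨ ∃ i, x = .o i (ρ i)}

theorem walk1 (τ : Fin N → Bool) : ∃ p : (Gr conf).Walk (.s 0) (.s (Fin.last N)),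
    ∀ x ∈ p.support, x ∈ U1 τ := by
  obtain ⟨f, hf⟩ : ∃ f : ℕ → Vx N m, ∀ k (h : k < N + 1), f k = .s ⟨k, h⟩ :=
    ⟨fun k => if h : k < N + 1 then .s ⟨k, h⟩ else .s 0, fun k h => dif_pos h⟩
  have h := exists_walk_chain (G := Gr conf) (U1 τ) f N ?_ ?_
  · obtain ⟨p, hp⟩ := h
    exact ⟨p.copy (hf 0 (by omega)) (hf N (by omega)), by simpa using hp⟩
  · rw [hf 0 (by omega)]
    exact Or.inl ⟨_, rfl⟩
  · intro k hk
    have h1 : k < N + 1 := by omega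
    have h2 : k + 1 < N + 1 := by omega
    rw [hf k h1, hf (k + 1) h2]
    have a1 : (Gr conf).Adj (.s ⟨k, h1⟩) (.c ⟨k, hk⟩ (τ ⟨k, hk⟩)) := Or.inl (Or.inl rfl)
    have a2 : (Gr conf).Adj (.c ⟨k, hk⟩ (τ ⟨k, hk⟩)) (.s ⟨k + 1, h2⟩) := Or.inr (Or.inr rfl)
    refine ⟨.cons a1 (.cons a2 .nil), ?_⟩
    intro x hx
    simp only [SimpleGraph.Walk.support_cons, SimpleGraph.Walk.support_nil, List.mem_cons,
      List.not_mem_nil, or_false] at hx
    rcases hx with rfl | rfl | rfl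
    · exact Or.inl ⟨_, rfl⟩
    · exact Or.inr ⟨_, rfl⟩
    · exact Or.inl ⟨_, rfl⟩

theorem walk2 (ρ : Fin m → Fin 3) : ∃ p : (Gr conf).Walk (.t 0) (.t (Fin.last m)),
    ∀ x ∈ p.support, x ∈ U2 ρ := by
  obtain ⟨f, hf⟩ : ∃ f : ℕ → Vx N m, ∀ k (h : k < m + 1), f k = .t ⟨k, h⟩ :=
    ⟨fun k => if h : k < m + 1 then .t ⟨k, h⟩ else .t 0, fun k h => dif_pos h⟩
  have h := exists_walk_chain (G := Gr conf) (U2 ρ) f m ?_ ?_
  · obtain ⟨p, hp⟩ := h
    exact ⟨p.copy (hf 0 (by omega)) (hf m (by omega)), by simpa using hp⟩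
  · rw [hf 0 (by omega)]
    exact Or.inl ⟨_, rfl⟩
  · intro k hk
    have h1 : k < m + 1 := by omega
    have h2 : k + 1 < m + 1 := by omega
    rw [hf k h1, hf (k + 1) h2]
    have a1 : (Gr conf).Adj (.t ⟨k, h1⟩) (.o ⟨k, hk⟩ (ρ ⟨k, hk⟩)) := Or.inl (Or.inl rfl)
    have a2 : (Gr conf).Adj (.o ⟨k, hk⟩ (ρ ⟨k, hk⟩)) (.t ⟨k + 1, h2⟩) := Or.inr (Or.inr rfl)
    refine ⟨.cons a1 (.cons a2 .nil), ?_⟩
    intro x hx
    simp only [SimpleGraph.Walk.support_cons, SimpleGraph.Walk.support_nil, List.mem_cons,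
      List.not_mem_nil, or_false] at hx
    rcases hx with rfl | rfl | rfl
    · exact Or.inl ⟨_, rfl⟩
    · exact Or.inr ⟨_, rfl⟩
    · exact Or.inl ⟨_, rfl⟩

theorem walk3 : ∃ p : (Gr conf).Walk .a .z, ∀ x ∈ p.support, x ∈ T3 := by
  have a1 : (Gr conf).Adj .a .p := Or.inr trivial
  have a2 : (Gr conf).Adj .p .z := Or.inl trivial
  refine ⟨.cons a1 (.cons a2 .nil), ?_⟩
  intro x hx
  simp only [SimpleGraph.Walk.support_cons, SimpleGraph.Walk.support_nil, List.mem_cons,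
    List.not_mem_nil, or_false] at hx
  rcases hx with rfl | rfl | rfl
  · exact Or.inl rfl
  · exact Or.inr (Or.inl rfl)
  · exact Or.inr (Or.inr rfl)

theorem far12 (τ : Fin N → Bool) (ρ : Fin m → Fin 3)
    (h : ∀ x i, conf x (τ x) i (ρ i) = false) :
    ∀ x ∈ U1 τ, ∀ v ∈ U2 ρ, 3 ≤ (Gr conf).edist x v := by
  rintro x hx v hy
  rw [three_le_edist_iff]
  rcases hx with ⟨x, rfl⟩ | ⟨x, rfl⟩ <;> rcases hy with ⟨i, rfl⟩ | ⟨i, rfl⟩
  · refine ⟨by simp, by simp [Gr, E], ?_⟩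
    rintro (_ | _ | _ | _ | _ | _ | _ | _ | _) <;> simp [Gr, E]
  · refine ⟨by simp, by simp [Gr, E], ?_⟩
    rintro (_ | _ | _ | _ | _ | _ | _ | _ | _) <;> simp [Gr, E]
  · refine ⟨by simp, by simp [Gr, E], ?_⟩
    rintro (_ | _ | _ | _ | _ | _ | _ | _ | _) <;> simp [Gr, E]
  · refine ⟨by simp, by simp [Gr, E], ?_⟩
    rintro (_ | _ | _ | _ | ⟨x', a, i', r⟩ | _ | _ | _ | _) <;> simp only [Gr, E, or_false,
      false_or, false_and, and_false, not_false_eq_true]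
    rintro ⟨⟨rfl, rfl⟩, h1, h2, h3⟩
    rw [h] at h3
    exact Bool.noConfusion h3

theorem far13 : ∀ x ∈ (T1 : Set (Vx N m)), ∀ v ∈ (T3 : Set (Vx N m)),
    3 ≤ (Gr conf).edist x v := by
  rintro x hx v hy
  rw [three_le_edist_iff]
  rcases hx with ⟨x, rfl⟩ | ⟨x, a, rfl⟩ <;> rcases hy with rfl | rfl | rfl <;>
  · refine ⟨by simp, by simp [Gr, E], ?_⟩
    rintro (_ | _ | _ | _ | _ | _ | _ | _ | _) <;> simp [Gr, E]

theorem far23 : ∀ x ∈ (T2 : Set (Vx N m)), ∀ v ∈ (T3 : Set (Vx N m)),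
    3 ≤ (Gr conf).edist x v := by
  rintro x hx v hy
  rw [three_le_edist_iff]
  rcases hx with ⟨x, rfl⟩ | ⟨x, a, rfl⟩ <;> rcases hy with rfl | rfl | rfl <;>
  · refine ⟨by simp, by simp [Gr, E], ?_⟩
    rintro (_ | _ | _ | _ | _ | _ | _ | _ | _) <;> simp [Gr, E]

end Q229.MM
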