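import Pool.Agent.Q229.MM.Gad

/-!
# Three pairwise far-apart A–Z paths: correctness of the reduction
-/

set_option autoImplicit false

namespace Q229.MM

variable {N m : ℕ} {conf : Fin N → Bool → Fin m → Fin 3 → Bool}

theorem U1_sub (τ : Fin N → Bool) : U1 τ ⊆ (T1 : Set (Vx N m)) := by
  rintro x (⟨i, rfl⟩ | ⟨i, rfl⟩)
  · exact Or.inl ⟨i, rfl⟩
  · exact Or.inr ⟨i, _, rfl⟩

theorem U2_sub (ρ : Fin m → Fin 3) : U2 ρ ⊆ (T2 : Set (Vx N m)) := by
  rintro x (⟨i, rfl⟩ | ⟨i, rfl⟩)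
  · exact Or.inl ⟨i, rfl⟩
  · exact Or.inr ⟨i, _, rfl⟩

theorem backward (τ : Fin N → Bool) (ρ : Fin m → Fin 3)
    (h : ∀ x i, conf x (τ x) i (ρ i) = false) : ThreeFarPaths (Gr conf) SA SZ := by
  let u : Fin 3 → Vx N m := ![.s 0, .t 0, .a]
  let v : Fin 3 → Vx N m := ![.s (Fin.last N), .t (Fin.last m), .z]
  let W : Fin 3 → Set (Vx N m) := ![U1 τ, U2 ρ, T3]
  have h1 : ∀ i, ∃ p : (Gr conf).Walk (u i) (v i), ∀ x ∈ p.support, x ∈ W i := by
    intro i
    fin_cases i
    · exact walk1 τ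
    · exact walk2 ρ
    · exact walk3
  choose p hp using h1
  have hT : ∀ i, W i ⊆ (![T1, T2, T3] : Fin 3 → Set (Vx N m)) i := by
    intro i
    fin_cases i
    · exact U1_sub τ
    · exact U2_sub ρ
    · exact subset_rfl
  have hA : ∀ i, ∀ x ∈ W i, x ∈ (SA : Set (Vx N m)) ↔ x = u i := by
    intro i x hx
    have hx' := hT i hx
    fin_cases i
    · change x ∈ T1 at hx'
      change _ ↔ x = .s 0
      rcases hx' with ⟨j, rfl⟩ | ⟨j, a, rfl⟩ <;> simp [SA]
    · change x ∈ T2 at hx'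
      change _ ↔ x = .t 0
      rcases hx' with ⟨j, rfl⟩ | ⟨j, a, rfl⟩ <;> simp [SA]
    · change x ∈ T3 at hx'
      change _ ↔ x = .a
      rcases hx' with rfl | rfl | rfl <;> simp [SA]
  have hZ : ∀ i, ∀ x ∈ W i, x ∈ (SZ : Set (Vx N m)) ↔ x = v i := by
    intro i x hx
    have hx' := hT i hx
    fin_cases i
    · change x ∈ T1 at hx'
      change _ ↔ x = .s (Fin.last N)
      rcases hx' with ⟨j, rfl⟩ | ⟨j, a, rfl⟩ <;> simp [SZ]
    · change x ∈ T2 at hx'
      change _ ↔ x = .t (Fin.last m)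
      rcases hx' with ⟨j, rfl⟩ | ⟨j, a, rfl⟩ <;> simp [SZ]
    · change x ∈ T3 at hx'
      change _ ↔ x = .z
      rcases hx' with rfl | rfl | rfl <;> simp [SZ]
  have hfar : ∀ i j, i ≠ j → ∀ x ∈ W i, ∀ w ∈ W j, 3 ≤ (Gr conf).edist x w := by
    have sym : ∀ x w, 3 ≤ (Gr conf).edist x w → 3 ≤ (Gr conf).edist w x := by
      intro x w h
      rwa [SimpleGraph.edist_comm]
    intro i j hij x hx w hw
    fin_cases i <;> fin_cases j
    · exact absurd rfl hij
    · exact far12 τ ρ h x hx w hw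
    · exact far13 x (U1_sub τ hx) w hw
    · exact sym _ _ (far12 τ ρ h w hw x hx)
    · exact absurd rfl hij
    · exact far23 x (U2_sub ρ hx) w hw
    · exact sym _ _ (far13 w (U1_sub τ hw) x hx)
    · exact sym _ _ (far23 w (U2_sub ρ hw) x hx)
    · exact absurd rfl hij
  refine ⟨u, v, fun i => (p i).bypass, fun i => ⟨(p i).bypass_isPath, ?_, ?_⟩, ?_⟩
  · intro x hx
    exact hA i x (hp i x ((p i).support_bypass_subset_support hx))
  · intro x hx
    exact hZ i x (hp i x ((p i).support_bypass_subset_support hx))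
  · intro i j hij x hx w hw
    exact hfar i j hij x (hp i x ((p i).support_bypass_subset_support hx)) w
      (hp j w ((p j).support_bypass_subset_support hw))

/-- A walk between the ends of the first track that stays in the track contains, for every
variable, one of the two vertices of the variable. -/
theorem cross1 (p : (Gr conf).Walk (.s 0) (.s (Fin.last N))) (hp : ∀ x ∈ p.support, x ∈ T1)
    (x : Fin N) : ∃ a, (.c x a : Vx N m) ∈ p.support := by
  by_contra hcon
  push Not at hcon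
  have h := support_subset_of_closed p
    {v | (∃ j : Fin (N + 1), j.1 ≤ x.1 ∧ v = .s j) ∨ ∃ (j : Fin N) (b : Bool), j.1 < x.1 ∧ v = .c j b}
    (Or.inl ⟨0, by simp, rfl⟩) ?_ _ p.end_mem_support
  · rcases h with ⟨j, hj, h⟩ | ⟨j, b, hj, h⟩
    · rw [Vx.s.injEq] at h
      rw [← h] at hj
      have := x.2
      simp only [Fin.val_last] at hj
      omega
    · cases h
  · intro v hv w hw hvw
    have hw' := hp w hw
    rcases hv with ⟨j, hj, rfl⟩ | ⟨j, b, hj, rfl⟩ <;>
      rcases hw' with ⟨k, rfl⟩ | ⟨k, b', rfl⟩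
    · simp [Gr, E] at hvw
    · have h1 : j.1 = k.1 ∨ j.1 = k.1 + 1 := by simpa [Gr, E] using hvw
      refine Or.inr ⟨k, b', ?_, rfl⟩
      have h2 : k ≠ x := by
        rintro rfl
        exact hcon b' hw
      have h3 : k.1 ≠ x.1 := fun h => h2 (Fin.ext h)
      omega
    · have h1 : k.1 = j.1 ∨ k.1 = j.1 + 1 := by simpa [Gr, E] using hvw
      exact Or.inl ⟨k, by omega, rfl⟩
    · simp [Gr, E] at hvw

theorem cross2 (p : (Gr conf).Walk (.t 0) (.t (Fin.last m))) (hp : ∀ x ∈ p.support, x ∈ T2)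
    (x : Fin m) : ∃ a, (.o x a : Vx N m) ∈ p.support := by
  by_contra hcon
  push Not at hcon
  have h := support_subset_of_closed p
    {v | (∃ j : Fin (m + 1), j.1 ≤ x.1 ∧ v = .t j) ∨ ∃ (j : Fin m) (b : Fin 3), j.1 < x.1 ∧ v = .o j b}
    (Or.inl ⟨0, by simp, rfl⟩) ?_ _ p.end_mem_support
  · rcases h with ⟨j, hj, h⟩ | ⟨j, b, hj, h⟩
    · rw [Vx.t.injEq] at h
      rw [← h] at hj
      have := x.2
      simp only [Fin.val_last] at hj
      omega
    · cases h
  · intro v hv w hw hvw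
    have hw' := hp w hw
    rcases hv with ⟨j, hj, rfl⟩ | ⟨j, b, hj, rfl⟩ <;>
      rcases hw' with ⟨k, rfl⟩ | ⟨k, b', rfl⟩
    · simp [Gr, E] at hvw
    · have h1 : j.1 = k.1 ∨ j.1 = k.1 + 1 := by simpa [Gr, E] using hvw
      refine Or.inr ⟨k, b', ?_, rfl⟩
      have h2 : k ≠ x := by
        rintro rfl
        exact hcon b' hw
      have h3 : k.1 ≠ x.1 := fun h => h2 (Fin.ext h)
      omega
    · have h1 : k.1 = j.1 ∨ k.1 = j.1 + 1 := by simpa [Gr, E] using hvw
      exact Or.inl ⟨k, by omega, rfl⟩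
    · simp [Gr, E] at hvw

theorem forward (h : ThreeFarPaths (Gr conf) SA SZ) :
    ∃ (τ : Fin N → Bool) (ρ : Fin m → Fin 3), ∀ x i, conf x (τ x) i (ρ i) = false := by
  obtain ⟨u, v, p, haz, hfar⟩ := h
  have hu : ∀ i, u i ∈ SA := fun i => ((haz i).2.1 _ (p i).start_mem_support).2 rfl
  have hv : ∀ i, v i ∈ SZ := fun i => ((haz i).2.2 _ (p i).end_mem_support).2 rfl
  have hdisj : ∀ i j x, x ∈ (p i).support → x ∈ (p j).support → i = j := by
    intro i j x hi hj
    by_contra hij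
    have h1 := (three_le_edist_iff _ _).1 (hfar i j hij x hi x hj)
    exact h1.1 rfl
  have hui : Function.Injective u := by
    intro i j hij
    refine hdisj i j (u i) (p i).start_mem_support ?_
    rw [hij]
    exact (p j).start_mem_support
  have hvi : Function.Injective v := by
    intro i j hij
    refine hdisj i j (v i) (p i).end_mem_support ?_
    rw [hij]
    exact (p j).end_mem_support
  -- surjectivity onto three element sets
  have surj : ∀ (f : Fin 3 → Vx N m), Function.Injective f → ∀ a1 b c : Vx N m,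
      (∀ i, f i = a1 ∨ f i = b ∨ f i = c) → (∃ i, f i = a1) ∧ (∃ i, f i = b) ∧ ∃ i, f i = c := by
    intro f hf a1 b c habc
    have h1 : (Finset.univ.image f) ⊆ {a1, b, c} := by
      intro x hx
      obtain ⟨i, _, rfl⟩ := Finset.mem_image.1 hx
      simpa using habc i
    have h2 : (Finset.univ.image f).card = 3 := by
      rw [Finset.card_image_of_injective _ hf]
      simp
    have h3 : (Finset.univ.image f) = {a1, b, c} :=
      Finset.eq_of_subset_of_card_le h1 (by rw [h2]; exact Finset.card_le_three)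
    have h4 : ∀ x ∈ ({a1, b, c} : Finset (Vx N m)), ∃ i, f i = x := by
      intro x hx
      rw [← h3] at hx
      obtain ⟨i, _, hi⟩ := Finset.mem_image.1 hx
      exact ⟨i, hi⟩
    exact ⟨h4 a1 (by simp), h4 b (by simp), h4 c (by simp)⟩
  obtain ⟨⟨i1, h1⟩, ⟨i2, h2⟩, ⟨i3, h3⟩⟩ := surj u hui (.s 0) (.t 0) .a hu
  obtain ⟨-, -, ⟨j3, k3⟩⟩ := surj v hvi (.s (Fin.last N)) (.t (Fin.last m)) .z hv
  -- the third path
  have hp3 : Vx.p ∈ (p i3).support := by
    by_contra hcon
    have h4 := support_subset_of_closed (p i3) {Vx.a} (by rw [h3]; rfl) (by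
      rintro x rfl w hw hxw
      exfalso
      rcases w with _ | _ | _ | _ | _ | _ | _ | _ | _ <;> simp [Gr, E] at hxw
      exact hcon hw) _ (p i3).end_mem_support
    rcases hv i3 with h5 | h5 | h5 <;> rw [h5] at h4 <;> cases h4
  have hp3' : Vx.p ∈ (p j3).support := by
    by_contra hcon
    have h4 := support_subset_of_closed (p j3).reverse {Vx.z} (by rw [k3]; rfl) (by
      rintro x rfl w hw hxw
      exfalso
      rw [SimpleGraph.Walk.support_reverse, List.mem_reverse] at hw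
      rcases w with _ | _ | _ | _ | _ | _ | _ | _ | _ <;> simp [Gr, E] at hxw
      exact hcon hw) _ (p j3).reverse.end_mem_support
    rcases hu j3 with h5 | h5 | h5 <;> rw [h5] at h4 <;> cases h4
  have h33 : i3 = j3 := hdisj _ _ _ hp3 hp3'
  subst h33
  -- the other paths avoid the connections
  have avoid : ∀ i, i ≠ i3 → ∀ x ∈ (p i).support, x ≠ .p ∧ x ≠ .y ∧ (∀ a b c d, x ≠ .w a b c d) := by
    intro i hi x hx
    have h5 := (three_le_edist_iff _ _).1 (hfar i i3 hi x hx _ hp3)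
    refine ⟨h5.1, ?_, ?_⟩
    · rintro rfl
      exact h5.2.1 (Or.inl trivial)
    · rintro a b c d rfl
      exact h5.2.2 .y ⟨Or.inl trivial, Or.inl trivial⟩
  have e13 : i1 ≠ i3 := by
    rintro rfl
    rw [h1] at h3
    cases h3
  have e23 : i2 ≠ i3 := by
    rintro rfl
    rw [h2] at h3
    cases h3
  have e12 : i1 ≠ i2 := by
    rintro rfl
    rw [h1] at h2
    cases h2
  have s1 : ∀ x ∈ (p i1).support, x ∈ T1 := by
    refine support_subset_of_closed (p i1) T1 (Or.inl ⟨0, h1⟩) ?_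
    rintro x hx w hw hxw
    have h6 := avoid i1 e13 w hw
    rcases hx with ⟨j, rfl⟩ | ⟨j, b, rfl⟩ <;>
      rcases w with ⟨x', a'⟩ | x' | _ | _ | ⟨a, b, c, d⟩ | _ | _ | _ | _ <;>
      simp only [Gr, E, or_false, or_self, false_or] at hxw
    · exact Or.inr ⟨_, _, rfl⟩
    · exact Or.inl ⟨_, rfl⟩
    · exact absurd rfl (h6.2.2 a b c d)
  have s2 : ∀ x ∈ (p i2).support, x ∈ T2 := by
    refine support_subset_of_closed (p i2) T2 (Or.inl ⟨0, h2⟩) ?_
    rintro x hx w hw hxw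
    have h6 := avoid i2 e23 w hw
    rcases hx with ⟨j, rfl⟩ | ⟨j, b, rfl⟩ <;>
      rcases w with ⟨x', a'⟩ | x' | ⟨x', r⟩ | x' | ⟨a, b, c, d⟩ | _ | _ | _ | _ <;>
      simp only [Gr, E, or_false, or_self, false_or] at hxw
    · exact Or.inr ⟨_, _, rfl⟩
    · exact Or.inl ⟨_, rfl⟩
    · exact absurd rfl (h6.2.2 a b c d)
  have v1 : v i1 = .s (Fin.last N) := by
    have h6 := s1 _ (p i1).end_mem_support
    rcases hv i1 with h7 | h7 | h7
    · exact h7
    · rw [h7] at h6
      rcases h6 with ⟨_, h6⟩ | ⟨_, _, h6⟩ <;> cases h6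
    · rw [h7] at h6
      rcases h6 with ⟨_, h6⟩ | ⟨_, _, h6⟩ <;> cases h6
  have v2 : v i2 = .t (Fin.last m) := by
    have h6 := s2 _ (p i2).end_mem_support
    rcases hv i2 with h7 | h7 | h7
    · rw [h7] at h6
      rcases h6 with ⟨_, h6⟩ | ⟨_, _, h6⟩ <;> cases h6
    · exact h7
    · rw [h7] at h6
      rcases h6 with ⟨_, h6⟩ | ⟨_, _, h6⟩ <;> cases h6
  have c1 : ∀ x : Fin N, ∃ a, (.c x a : Vx N m) ∈ (p i1).support := by
    have h7 := cross1 ((p i1).copy h1 v1) (by simpa using s1)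
    simpa using h7
  have c2 : ∀ x : Fin m, ∃ a, (.o x a : Vx N m) ∈ (p i2).support := by
    have h7 := cross2 ((p i2).copy h2 v2) (by simpa using s2)
    simpa using h7
  choose τ hτ using c1
  choose ρ hρ using c2
  refine ⟨τ, ρ, fun x i => ?_⟩
  by_contra hcon
  rw [Bool.not_eq_false] at hcon
  have h6 := (three_le_edist_iff _ _).1 (hfar i1 i2 e12 _ (hτ x) _ (hρ i))
  exact h6.2.2 (.w x (τ x) i (ρ i)) ⟨Or.inl ⟨rfl, rfl⟩, Or.inr ⟨rfl, rfl, hcon⟩⟩

theorem main : ThreeFarPaths (Gr conf) SA SZ ↔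
    ∃ (τ : Fin N → Bool) (ρ : Fin m → Fin 3), ∀ x i, conf x (τ x) i (ρ i) = false :=
  ⟨forward, fun ⟨τ, ρ, h⟩ => backward τ ρ h⟩

end Q229.MM
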