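import Pool.Agent.Q229.MM.Red

/-!
# Three pairwise far-apart A–Z paths: membership in NP
-/

set_option autoImplicit false

namespace Q229.MM

open Pool.Agent.NPC Pool.Agent.H622R2 Pool.Agent.H958R2

/-- instances -/
abbrev In : Type := List (List Bool) × (List Bool × List Bool)

/-- the list `l` is a walk that meets the sets only at its ends -/
def okL (I : In) (l : List ℕ) : Bool :=
  (!l.isEmpty && l.all fun x => decide (x < I.1.length) &&
    (decide (I.2.1.getD x false = decide (x = l.getD 0 0)) &&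
      decide (I.2.2.getD x false = decide (x = l.getD (l.length - 1) 0)))) &&
  (List.range (l.length - 1)).all fun k => adjT I.1 (l.getD k 0) (l.getD (k + 1) 0)

/-- the lists are far apart -/
def farL (I : In) (l l' : List ℕ) : Bool :=
  l.all fun x => l'.all fun y => !decide (x = y) && (!adjT I.1 x y &&
    (List.range I.1.length).all fun z => !(adjT I.1 x z && adjT I.1 z y))

/-- the test of a certificate -/
def certT (p : In × (List ℕ × (List ℕ × List ℕ))) : Bool :=
  (okL p.1 p.2.1 && (okL p.1 p.2.2.1 && okL p.1 p.2.2.2)) &&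
    (farL p.1 p.2.1 p.2.2.1 && (farL p.1 p.2.1 p.2.2.2 && farL p.1 p.2.2.1 p.2.2.2))

theorem okL_poly {α : Type} [TEnc α] {I : α → In} {l : α → List ℕ} (hI : Poly I) (hl : Poly l) :
    Poly (fun a => okL (I a) (l a)) := by
  unfold okL
  refine Poly.and (Poly.and (Poly.not (Poly.isEmpty hl)) (Poly.all
    (p := fun a x => decide (x < (I a).1.length) &&
    (decide ((I a).2.1.getD x false = decide (x = (l a).getD 0 0)) &&
      decide ((I a).2.2.getD x false = decide (x = (l a).getD ((l a).length - 1) 0)))) hl ?_))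
    (Poly.all (p := fun a k => adjT (I a).1 ((l a).getD k 0) ((l a).getD (k + 1) 0)) ?_ ?_)
  · have hI' : Poly (fun p : α × ℕ => I p.1) := hI.comp (Poly.fst Poly.id)
    have hl' : Poly (fun p : α × ℕ => l p.1) := hl.comp (Poly.fst Poly.id)
    have hx : Poly (fun p : α × ℕ => p.2) := Poly.snd Poly.id
    exact Poly.and (Poly.decide_lt hx (Poly.length (Poly.fst hI'))) (Poly.and
      (Poly.decide_eq (Poly.getD (Poly.fst (Poly.snd hI')) hx (pc false))
        (Poly.decide_eq hx (Poly.getD hl' (pc 0) (pc 0))))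
      (Poly.decide_eq (Poly.getD (Poly.snd (Poly.snd hI')) hx (pc false))
        (Poly.decide_eq hx (Poly.getD hl' (psub (Poly.length hl') (pc 1)) (pc 0)))))
  · exact UPoly.range (UPoly.of_le (psub (Poly.length hl) (pc 1)) (UPoly.length hl)
      (fun a => Nat.sub_le _ _))
  · have hI' : Poly (fun p : α × ℕ => I p.1) := hI.comp (Poly.fst Poly.id)
    have hl' : Poly (fun p : α × ℕ => l p.1) := hl.comp (Poly.fst Poly.id)
    have hx : Poly (fun p : α × ℕ => p.2) := Poly.snd Poly.id
    exact adjT_poly (Poly.fst hI') (Poly.getD hl' hx (pc 0))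
      (Poly.getD hl' (padd hx (pc 1)) (pc 0))

theorem farL_poly {α : Type} [TEnc α] {I : α → In} {l l' : α → List ℕ} (hI : Poly I)
    (hl : Poly l) (hl' : Poly l') : Poly (fun a => farL (I a) (l a) (l' a)) := by
  unfold farL
  refine Poly.all (p := fun a x => (l' a).all fun y => !decide (x = y) && (!adjT (I a).1 x y &&
    (List.range (I a).1.length).all fun z => !(adjT (I a).1 x z && adjT (I a).1 z y))) hl ?_
  refine Poly.all (p := fun (p : α × ℕ) y => !decide (p.2 = y) && (!adjT (I p.1).1 p.2 y &&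
    (List.range (I p.1).1.length).all fun z => !(adjT (I p.1).1 p.2 z && adjT (I p.1).1 z y)))
    (hl'.comp (Poly.fst Poly.id)) ?_
  have hI' : Poly (fun p : (α × ℕ) × ℕ => (I p.1.1).1) :=
    Poly.fst (hI.comp (Poly.fst (Poly.fst Poly.id)))
  have hx : Poly (fun p : (α × ℕ) × ℕ => p.1.2) := Poly.snd (Poly.fst Poly.id)
  have hy : Poly (fun p : (α × ℕ) × ℕ => p.2) := Poly.snd Poly.id
  refine Poly.and (Poly.not (Poly.decide_eq hx hy)) (Poly.and (Poly.not (adjT_poly hI' hx hy)) ?_)
  refine Poly.all (p := fun (p : (α × ℕ) × ℕ) z =>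
    !(adjT (I p.1.1).1 p.1.2 z && adjT (I p.1.1).1 z p.2)) (Poly.range_length hI') ?_
  exact Poly.not (Poly.and (adjT_poly (hI'.comp (Poly.fst Poly.id)) (hx.comp (Poly.fst Poly.id))
    (Poly.snd Poly.id)) (adjT_poly (hI'.comp (Poly.fst Poly.id)) (Poly.snd Poly.id)
    (hy.comp (Poly.fst Poly.id))))

theorem certT_poly : Poly certT := by
  have h0 : Poly (fun p : In × (List ℕ × (List ℕ × List ℕ)) => p.1) := Poly.fst Poly.id
  have h1 : Poly (fun p : In × (List ℕ × (List ℕ × List ℕ)) => p.2.1) := Poly.fst (Poly.snd Poly.id)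
  have h2 : Poly (fun p : In × (List ℕ × (List ℕ × List ℕ)) => p.2.2.1) :=
    Poly.fst (Poly.snd (Poly.snd Poly.id))
  have h3 : Poly (fun p : In × (List ℕ × (List ℕ × List ℕ)) => p.2.2.2) :=
    Poly.snd (Poly.snd (Poly.snd Poly.id))
  exact Poly.and (Poly.and (okL_poly h0 h1) (Poly.and (okL_poly h0 h2) (okL_poly h0 h3)))
    (Poly.and (farL_poly h0 h1 h2) (Poly.and (farL_poly h0 h1 h3) (farL_poly h0 h2 h3)))

/-- the first set -/
def setA (I : In) : Set (Fin I.1.length) := {i | I.2.1.getD i.1 false = true}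
/-- the last set -/
def setZ (I : In) : Set (Fin I.1.length) := {i | I.2.2.getD i.1 false = true}

theorem okL_sound (I : In) (l : List ℕ) (h : okL I l = true) :
    ∃ (u v : Fin I.1.length) (p : (matGraph I.1).Walk u v), IsAZPath (setA I) (setZ I) p ∧
      ∀ x ∈ p.support, x.1 ∈ l := by
  unfold okL at h
  simp only [Bool.and_eq_true, List.all_eq_true, decide_eq_true_eq, List.mem_range,
    Bool.not_eq_true', List.isEmpty_eq_false_iff] at h
  obtain ⟨⟨h1, h2⟩, h3⟩ := h
  have hlen : 0 < l.length := List.length_pos_of_ne_nil h1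
  have hm : ∀ k < l.length, l.getD k 0 ∈ l := by
    intro k hk
    rw [List.getD_eq_getElem _ _ hk]
    exact List.getElem_mem hk
  have hn : 0 < I.1.length := lt_of_le_of_lt (Nat.zero_le _) (h2 _ (hm 0 hlen)).1
  obtain ⟨f, hf⟩ : ∃ f : ℕ → Fin I.1.length, ∀ k < l.length, (f k).1 = l.getD k 0 := by
    refine ⟨fun k => if h : l.getD k 0 < I.1.length then ⟨l.getD k 0, h⟩ else ⟨0, hn⟩, ?_⟩
    intro k hk
    dsimp only
    rw [dif_pos (h2 _ (hm k hk)).1]
  obtain ⟨p, hp⟩ := exists_walk_chain (G := matGraph I.1) {x | x.1 ∈ l} f (l.length - 1) (by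
    change (f 0).1 ∈ l
    rw [hf 0 hlen]
    exact hm 0 hlen) (by
    intro k hk
    have hk1 : k < l.length := by omega
    have hk2 : k + 1 < l.length := by omega
    have h4 := h3 k hk
    rw [← hf k hk1, ← hf (k + 1) hk2, adjT_iff] at h4
    refine ⟨.cons h4 .nil, ?_⟩
    intro x hx
    simp only [SimpleGraph.Walk.support_cons, SimpleGraph.Walk.support_nil, List.mem_cons,
      List.not_mem_nil, or_false] at hx
    rcases hx with rfl | rfl
    · change (f k).1 ∈ l
      rw [hf k hk1]
      exact hm k hk1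
    · change (f (k + 1)).1 ∈ l
      rw [hf (k + 1) hk2]
      exact hm (k + 1) hk2)
  have hp' : ∀ x ∈ p.bypass.support, x.1 ∈ l := fun x hx =>
    hp x (p.support_bypass_subset_support hx)
  refine ⟨_, _, p.bypass, ⟨p.bypass_isPath, ?_, ?_⟩, hp'⟩
  · intro x hx
    have h4 := (h2 x.1 (hp' x hx)).2.1
    rw [← hf 0 hlen] at h4
    change (I.2.1.getD x.1 false = true) ↔ _
    rw [h4, decide_eq_true_eq, Fin.ext_iff]
  · intro x hx
    have h4 := (h2 x.1 (hp' x hx)).2.2
    rw [← hf _ (by omega)] at h4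
    change (I.2.2.getD x.1 false = true) ↔ _
    rw [h4, decide_eq_true_eq, Fin.ext_iff]

theorem okL_complete (I : In) {u v : Fin I.1.length} (p : (matGraph I.1).Walk u v)
    (h : IsAZPath (setA I) (setZ I) p) : okL I (p.support.map Fin.val) = true ∧
      (∀ x ∈ p.support.map Fin.val, x < I.1.length) ∧
      (p.support.map Fin.val).length ≤ I.1.length := by
  have hg : ∀ k, k < p.length + 1 → (p.support.map Fin.val).getD k 0 = (p.getVert k).1 := by
    intro k hk
    rw [List.getD_eq_getElem _ _ (by simpa using hk), List.getElem_map,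
      SimpleGraph.Walk.getVert_eq_support_getElem p (by omega)]
  have hlen : (p.support.map Fin.val).length = p.length + 1 := by simp
  refine ⟨?_, ?_, ?_⟩
  · unfold okL
    simp only [Bool.and_eq_true, List.all_eq_true, decide_eq_true_eq, List.mem_range,
      Bool.not_eq_true', List.isEmpty_eq_false_iff]
    rw [hlen, hg 0 (by omega), hg (p.length + 1 - 1) (by omega)]
    simp only [Nat.add_sub_cancel, SimpleGraph.Walk.getVert_zero,
      SimpleGraph.Walk.getVert_length]
    refine ⟨⟨by simp, ?_⟩, ?_⟩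
    · intro x hx
      obtain ⟨x, hx', rfl⟩ := List.mem_map.1 hx
      refine ⟨x.2, ?_, ?_⟩
      · rw [Bool.eq_iff_iff, decide_eq_true_eq, ← Fin.ext_iff]
        exact h.2.1 x hx'
      · rw [Bool.eq_iff_iff, decide_eq_true_eq, ← Fin.ext_iff]
        exact h.2.2 x hx'
    · intro k hk
      rw [hg k (by omega), hg (k + 1) (by omega), adjT_iff]
      exact p.adj_getVert_succ hk
  · intro x hx
    obtain ⟨x, _, rfl⟩ := List.mem_map.1 hx
    exact x.2
  · rw [List.length_map]
    have h1 := h.1.support_nodup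
    have h2 := h1.length_le_card
    simpa using h2

theorem farL_iff (I : In) (l l' : List ℕ) (hl : ∀ x ∈ l, x < I.1.length)
    (hl' : ∀ x ∈ l', x < I.1.length) : farL I l l' = true ↔
    ∀ x y : Fin I.1.length, x.1 ∈ l → y.1 ∈ l' → 3 ≤ (matGraph I.1).edist x y := by
  unfold farL
  simp only [List.all_eq_true, Bool.and_eq_true, Bool.not_eq_true', decide_eq_false_iff_not,
    List.mem_range]
  constructor
  · intro h x y hx hy
    obtain ⟨h1, h2, h3⟩ := h x.1 hx y.1 hy
    rw [three_le_edist_iff]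
    refine ⟨fun h4 => h1 (congrArg Fin.val h4), ?_, ?_⟩
    · rw [← adjT_iff, h2]
      exact Bool.false_ne_true
    · rintro z ⟨h4, h5⟩
      have h6 := h3 z.1 z.2
      rw [(adjT_iff _ _ _).2 h4, (adjT_iff _ _ _).2 h5] at h6
      exact absurd h6 (by decide)
  · intro h x hx y hy
    have h1 := h ⟨x, hl x hx⟩ ⟨y, hl' y hy⟩ hx hy
    rw [three_le_edist_iff] at h1
    obtain ⟨h1, h2, h3⟩ := h1
    refine ⟨fun h4 => h1 (Fin.ext h4), ?_, ?_⟩
    · rw [← Bool.not_eq_true]
      exact fun h4 => h2 ((adjT_iff I.1 ⟨x, hl x hx⟩ ⟨y, hl' y hy⟩).1 h4)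
    · intro z hz
      rw [← Bool.not_eq_true, Bool.and_eq_true]
      exact fun h4 => h3 ⟨z, hz⟩ ⟨(adjT_iff I.1 ⟨x, hl x hx⟩ ⟨z, hz⟩).1 h4.1,
        (adjT_iff I.1 ⟨z, hz⟩ ⟨y, hl' y hy⟩).1 h4.2⟩

theorem cert_iff (I : In) : MM3 I ↔ ∃ w : List ℕ × (List ℕ × List ℕ),
    sz w ≤ (Polynomial.C 3 * (Polynomial.X * (Polynomial.C 4 * Polynomial.X + Polynomial.C 2)) +
      Polynomial.C 10 : Polynomial ℕ).eval (sz I) ∧ certT (I, w) = true := by
  have hn : I.1.length < sz I := by
    have h1 : I.1.length < sz I.1 := length_lt_sz I.1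
    have h2 : sz I = sz I.1 + sz I.2 + 1 := sz_pair _ _
    omega
  simp only [Polynomial.eval_add, Polynomial.eval_mul, Polynomial.eval_C, Polynomial.eval_X]
  constructor
  · rintro ⟨u, v, p, haz, hfar⟩
    have hc := fun i => okL_complete I (p i) (haz i)
    have hs := fun i => sz_list_lt I.1.length ((p i).support.map Fin.val) (hc i).2.1 (hc i).2.2
    have hf : ∀ i j, i ≠ j → farL I ((p i).support.map Fin.val) ((p j).support.map Fin.val) =
        true := by
      intro i j hij
      rw [farL_iff I _ _ (hc i).2.1 (hc j).2.1]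
      intro x y hx hy
      obtain ⟨x', hx', hx⟩ := List.mem_map.1 hx
      obtain ⟨y', hy', hy⟩ := List.mem_map.1 hy
      rw [← Fin.ext hx, ← Fin.ext hy]
      exact hfar i j hij x' hx' y' hy'
    refine ⟨((p 0).support.map Fin.val, (p 1).support.map Fin.val, (p 2).support.map Fin.val),
      ?_, ?_⟩
    · have h0 := hs 0
      have h1 := hs 1
      have h2 := hs 2
      have h4 : I.1.length * (4 * I.1.length + 2) ≤ sz I * (4 * sz I + 2) :=
        Nat.mul_le_mul hn.le (by omega)
      rw [sz_pair, sz_pair]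
      omega
    · unfold certT
      simp only [Bool.and_eq_true]
      exact ⟨⟨(hc 0).1, (hc 1).1, (hc 2).1⟩, hf 0 1 (by decide), hf 0 2 (by decide),
        hf 1 2 (by decide)⟩
  · rintro ⟨⟨l0, l1, l2⟩, -, h⟩
    unfold certT at h
    simp only [Bool.and_eq_true] at h
    obtain ⟨⟨h0, h1, h2⟩, h3, h4, h5⟩ := h
    have hlt : ∀ l, okL I l = true → ∀ x ∈ l, x < I.1.length := by
      intro l hl x hx
      unfold okL at hl
      simp only [Bool.and_eq_true, List.all_eq_true, decide_eq_true_eq] at hl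
      exact (hl.1.2 x hx).1
    let L : Fin 3 → List ℕ := ![l0, l1, l2]
    have hok : ∀ i, okL I (L i) = true := by
      intro i
      fin_cases i
      · exact h0
      · exact h1
      · exact h2
    choose u v p haz hp using fun i => okL_sound I (L i) (hok i)
    have far : ∀ i j, farL I (L i) (L j) = true → ∀ x ∈ (p i).support, ∀ y ∈ (p j).support,
        3 ≤ (matGraph I.1).edist x y := by
      intro i j h x hx y hy
      exact (farL_iff I _ _ (hlt _ (hok i)) (hlt _ (hok j))).1 h x y (hp i x hx) (hp j y hy)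
    have sym : ∀ i j, (∀ x ∈ (p i).support, ∀ y ∈ (p j).support,
        3 ≤ (matGraph I.1).edist x y) → ∀ x ∈ (p j).support, ∀ y ∈ (p i).support,
        3 ≤ (matGraph I.1).edist x y := by
      intro i j h x hx y hy
      rw [SimpleGraph.edist_comm]
      exact h y hy x hx
    refine ⟨u, v, p, haz, fun i j hij => ?_⟩
    fin_cases i <;> fin_cases j
    · exact absurd rfl hij
    · exact far 0 1 h3
    · exact far 0 2 h4
    · exact sym 0 1 (far 0 1 h3)
    · exact absurd rfl hij
    · exact far 1 2 h5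
    · exact sym 0 2 (far 0 2 h4)
    · exact sym 1 2 (far 1 2 h5)
    · exact absurd rfl hij

theorem inNPP : InNPP MM3 := inNPP_of certT_poly _ cert_iff

theorem hardI : HardI MM3 :=
  (H958NLT.hardPr_X13.trans (Pr' := fun _ => True) (Q := MM3) red_poly
    (fun _ _ => trivial) (fun φ h => red_iff φ h)).toHardI

end Q229.MM
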