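import Pool.Agent.Q229.MM.Main
import Pool.Agent.Q229.MS.Rel

/-!
# Three pairwise far-apart A–Z paths: the reduction
-/

set_option autoImplicit false

namespace Q229.MM

open Pool.Agent.NPC Pool.Agent.H622R2 Pool.Agent.H958R2
open Q229.MS (litL litL_lt tn Fm)

/-- labels -/
abbrev Lab : Type := ℕ × ℕ × ℕ

/-- conflicts between the value `a` of the variable `v` and the choice of the literal number `j` as
the true literal of its clause -/
def confL (φ : Fm) (v a j : ℕ) : Bool :=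
  [0, 1, 2].any fun s => decide ((litL φ (3 * (j / 3) + s)).2 = v) &&
    !decide (decide (decide (a = 1) = (litL φ (3 * (j / 3) + s)).1) = decide (s = j % 3))

/-- variables -/
def r1 (x y : Lab) : Bool :=
  decide (x.1 = 1) && (decide (y.1 = 0) && (decide (x.2.1 = y.2.1) || decide (x.2.1 = y.2.1 + 1)))
/-- clauses -/
def r2 (x y : Lab) : Bool :=
  decide (x.1 = 3) && (decide (y.1 = 2) && (decide (x.2.1 = y.2.1) || decide (x.2.1 = y.2.1 + 1)))
/-- variables and connections -/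
def r3 (x y : Lab) : Bool :=
  decide (x.1 = 0) && (decide (y.1 = 4) && decide (2 * x.2.1 + x.2.2 = y.2.1))
/-- clauses and connections -/
def r4 (φ : Fm) (x y : Lab) : Bool :=
  decide (x.1 = 2) && (decide (y.1 = 4) && (decide (3 * x.2.1 + x.2.2 = y.2.2) &&
    confL φ (y.2.1 / 2) (y.2.1 % 2) y.2.2))
/-- connections -/
def r5 (x y : Lab) : Bool :=
  decide (x.1 = 4) && decide (y = (5, 0, 0))
/-- the third track -/
def r6 (x y : Lab) : Bool :=
  decide ((x, y) ∈ [(((5, 0, 0) : Lab), ((5, 1, 0) : Lab)), ((5, 1, 0), (5, 2, 0)),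
    ((5, 1, 0), (5, 3, 0))])

/-- the edges -/
def adjL (φ : Fm) (x y : Lab) : Bool :=
  r1 x y || (r2 x y || (r3 x y || (r4 φ x y || (r5 x y || r6 x y))))

/-- the labels -/
def vs (φ : Fm) : List Lab :=
  block 0 (3 * φ.length) 2 ++ (block 1 (3 * φ.length + 1) 1 ++ (block 2 φ.length 3 ++
    (block 3 (φ.length + 1) 1 ++ (block 4 (2 * (3 * φ.length)) (3 * φ.length) ++ block 5 4 1))))

/-- the first vertices -/
def tA (z : Lab) : Bool := decide (z ∈ [((1, 0, 0) : Lab), (3, 0, 0), (5, 2, 0)])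

/-- the last vertices -/
def tZ (φ : Fm) (z : Lab) : Bool :=
  decide (z = (1, 3 * φ.length, 0)) || (decide (z = (3, φ.length, 0)) || decide (z = (5, 3, 0)))

/-- the reduction -/
def red (φ : Fm) : List (List Bool) × (List Bool × List Bool) :=
  (mat (vs φ) (adjL φ), ((vs φ).map tA, (vs φ).map (tZ φ)))

/-- the label of a vertex -/
def lab (N m : ℕ) : Vx N m → Lab
  | .c x a => (0, x, a.toNat)
  | .s x => (1, x, 0)
  | .o i r => (2, i, r)
  | .t i => (3, i, 0)
  | .w x a i r => (4, 2 * x.1 + a.toNat, 3 * i.1 + r.1)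
  | .y => (5, 0, 0)
  | .p => (5, 1, 0)
  | .a => (5, 2, 0)
  | .z => (5, 3, 0)

theorem lab_injective (N m : ℕ) : Function.Injective (lab N m) := by
  rintro (⟨x, a⟩ | x | ⟨i, r⟩ | i | ⟨x, a, i, r⟩ | _ | _ | _ | _)
    (⟨x', a'⟩ | x' | ⟨i', r'⟩ | i' | ⟨x', a', i', r'⟩ | _ | _ | _ | _) h <;>
    simp only [lab, Prod.mk.injEq, false_and, zero_ne_one, one_ne_zero, and_false, 
      OfNat.ofNat_ne_zero, OfNat.zero_ne_ofNat, OfNat.ofNat_ne_one, OfNat.one_ne_ofNat,
      Nat.reduceEqDiff, true_and, and_true] at h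
  · rw [Fin.ext h.1, tn h.2]
  · rw [Fin.ext h]
  · rw [Fin.ext h.1, Fin.ext h.2]
  · rw [Fin.ext h]
  · have h1 := r.2
    have h2 := r'.2
    have h3 := Bool.toNat_le a
    have h4 := Bool.toNat_le a'
    have h5 : x = x' := Fin.ext (by omega)
    have h6 : i = i' := Fin.ext (by omega)
    have h7 : r = r' := Fin.ext (by omega)
    have h8 : a = a' := tn (by omega)
    rw [h5, h6, h7, h8]
  all_goals rfl

theorem vs_nodup (φ : Fm) : (vs φ).Nodup := by
  unfold vs
  refine block_append_nodup (block_append_nodup (block_append_nodup (block_append_nodup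
    (block_append_nodup (block_nodup _ _ _) ?_) ?_) ?_) ?_) ?_ <;>
  · intro z hz
    simp only [List.mem_append, mem_block] at hz
    omega

theorem mem_vs (φ : Fm) (z : Lab) : z ∈ vs φ ↔
    ∃ x, lab (3 * φ.length) φ.length x = z := by
  unfold vs
  simp only [List.mem_append, mem_block]
  obtain ⟨t, i, k⟩ := z
  constructor
  · rintro (⟨h1, h2, h3⟩ | ⟨h1, h2, h3⟩ | ⟨h1, h2, h3⟩ | ⟨h1, h2, h3⟩ | ⟨h1, h2, h3⟩ |
      ⟨h1, h2, h3⟩) <;> simp only at h1 h2 h3 <;> subst h1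
    · refine ⟨.c ⟨i, h2⟩ (decide (k = 1)), ?_⟩
      have : k = 0 ∨ k = 1 := by omega
      rcases this with rfl | rfl <;> simp [lab]
    · refine ⟨.s ⟨i, h2⟩, ?_⟩
      have : k = 0 := by omega
      rw [this]
      rfl
    · exact ⟨.o ⟨i, h2⟩ ⟨k, h3⟩, rfl⟩
    · refine ⟨.t ⟨i, h2⟩, ?_⟩
      have : k = 0 := by omega
      rw [this]
      rfl
    · refine ⟨.w ⟨i / 2, by omega⟩ (decide (i % 2 = 1)) ⟨k / 3, by omega⟩ ⟨k % 3, by omega⟩, ?_⟩
      have h4 : 3 * (k / 3) + k % 3 = k := by omega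
      have h6 : (decide (i % 2 = 1)).toNat = i % 2 := by
        rcases Nat.mod_two_eq_zero_or_one i with h7 | h7 <;> rw [h7] <;> rfl
      have h5 : 2 * (i / 2) + i % 2 = i := by omega
      simp only [lab, h4, h6, h5]
    · have h5 : k = 0 := by omega
      have h4 : i = 0 ∨ i = 1 ∨ i = 2 ∨ i = 3 := by omega
      rw [h5]
      rcases h4 with rfl | rfl | rfl | rfl
      · exact ⟨.y, rfl⟩
      · exact ⟨.p, rfl⟩
      · exact ⟨.a, rfl⟩
      · exact ⟨.z, rfl⟩
  · rintro ⟨⟨x, a⟩ | x | ⟨i', r⟩ | i' | ⟨x, a, i', r⟩ | _ | _ | _ | _, h⟩ <;>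
      simp only [lab, Prod.mk.injEq] at h <;> obtain ⟨rfl, rfl, rfl⟩ := h
    · have := Bool.toNat_le a
      have := x.2
      left
      exact ⟨rfl, by dsimp only; omega, by dsimp only; omega⟩
    · right; left
      exact ⟨rfl, x.2, by norm_num⟩
    · right; right; left
      exact ⟨rfl, i'.2, r.2⟩
    · right; right; right; left
      exact ⟨rfl, i'.2, by norm_num⟩
    · have := Bool.toNat_le a
      have := x.2
      have := i'.2
      have := r.2
      right; right; right; right; left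
      exact ⟨rfl, by dsimp only; omega, by dsimp only; omega⟩
    all_goals
      right; right; right; right; right
      exact ⟨rfl, by norm_num, by norm_num⟩

/-- conflicts -/
def conf (φ : Fm) (x : Fin (3 * φ.length)) (a : Bool) (i : Fin φ.length) (r : Fin 3) : Bool :=
  confL φ x.1 a.toNat (3 * i.1 + r.1)

theorem adjL_lab (φ : Fm) (x v : Vx (3 * φ.length) φ.length) :
    E (conf φ) x v ↔ adjL φ (lab _ _ x) (lab _ _ v) = true := by
  have k1 : ∀ (x : ℕ) (a : Bool), (2 * x + a.toNat) / 2 = x := by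
    intro x a
    have := Bool.toNat_le a
    omega
  have k2 : ∀ (x : ℕ) (a : Bool), (2 * x + a.toNat) % 2 = a.toNat := by
    intro x a
    have := Bool.toNat_le a
    omega
  have k3 : ∀ (x x' : Fin (3 * φ.length)) (a a' : Bool),
      (2 * x.1 + a.toNat = 2 * x'.1 + a'.toNat) ↔ (x = x' ∧ a = a') := by
    intro x x' a a'
    constructor
    · intro h
      have h3 := Bool.toNat_le a
      have h4 := Bool.toNat_le a'
      exact ⟨Fin.ext (by omega), tn (by omega)⟩
    · rintro ⟨rfl, rfl⟩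
      rfl
  have k4 : ∀ (i i' : Fin φ.length) (r r' : Fin 3),
      (3 * i.1 + r.1 = 3 * i'.1 + r'.1) ↔ (i = i' ∧ r = r') := by
    intro i i' r r'
    constructor
    · intro h
      have h3 := r.2
      have h4 := r'.2
      exact ⟨Fin.ext (by omega), Fin.ext (by omega)⟩
    · rintro ⟨rfl, rfl⟩
      rfl
  rcases x with ⟨x, a⟩ | x | ⟨i, r⟩ | i | ⟨x, a, i, r⟩ | _ | _ | _ | _ <;>
    rcases v with ⟨x', a'⟩ | x' | ⟨i', r'⟩ | i' | ⟨x', a', i', r'⟩ | _ | _ | _ | _ <;>
    simp only [adjL, r1, r2, r3, r4, r5, r6, lab, E, Prod.mk.injEq, false_and, zero_ne_one,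
      one_ne_zero, OfNat.ofNat_ne_zero, OfNat.zero_ne_ofNat, OfNat.ofNat_ne_one,
      OfNat.one_ne_ofNat, Nat.reduceEqDiff, decide_true, decide_false,
      Bool.false_and, Bool.and_false, Bool.true_and, Bool.false_or, Bool.or_false,
      Bool.false_eq_true, List.mem_cons, List.not_mem_nil, or_false, or_self, and_false,
      or_true, and_true, Bool.or_eq_true, Bool.and_eq_true, decide_eq_true_eq, k1, k2, k3, k4, conf]
  rw [and_assoc]
  refine and_congr_right fun h1 => and_congr_right fun h2 => ?_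
  rw [h1, h2]

theorem tA_lab (N m : ℕ) (x : Vx N m) : x ∈ SA ↔ tA (lab N m x) = true := by
  have h1 : ∀ x : Fin (N + 1), x = 0 ↔ x.1 = 0 := fun x => Fin.ext_iff
  have h2 : ∀ x : Fin (m + 1), x = 0 ↔ x.1 = 0 := fun x => Fin.ext_iff
  rcases x with ⟨x, a⟩ | x | ⟨i, r⟩ | i | ⟨x, a, i, r⟩ | _ | _ | _ | _ <;>
    simp [SA, tA, lab, -Fin.val_eq_zero_iff, h1, h2]

theorem tZ_lab (φ : Fm) (x : Vx (3 * φ.length) φ.length) :
    x ∈ SZ ↔ tZ φ (lab _ _ x) = true := by
  have h1 : ∀ x : Fin (3 * φ.length + 1), x = Fin.last _ ↔ x.1 = 3 * φ.length :=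
    fun x => Fin.ext_iff
  have h2 : ∀ x : Fin (φ.length + 1), x = Fin.last _ ↔ x.1 = φ.length := fun x => Fin.ext_iff
  rcases x with ⟨x, a⟩ | x | ⟨i, r⟩ | i | ⟨x, a, i, r⟩ | _ | _ | _ | _ <;>
    simp [SZ, tZ, lab, h1, h2]

theorem red_iso (φ : Fm) : MM3 (red φ) ↔ ThreeFarPaths (Gr (conf φ)) SA SZ := by
  obtain ⟨e, he⟩ := matGraph_iso' (vs φ) (vs_nodup φ) (adjL φ) (Gr (conf φ))
    (lab (3 * φ.length) φ.length) (lab_injective _ _) (mem_vs φ) (by
      intro x v
      rw [← adjL_lab, ← adjL_lab]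
      constructor
      · exact fun h => ⟨h.ne, h⟩
      · exact fun h => h.2)
  have h0 : MM3 (red φ) ↔ ThreeFarPaths (matGraph (mat (vs φ) (adjL φ)))
      {i | ((vs φ).map tA).getD i.1 false = true}
      {i | ((vs φ).map (tZ φ)).getD i.1 false = true} := Iff.rfl
  rw [h0]
  refine threeFarPaths_iff e ?_ ?_
  · intro i
    have hi : i.1 < (vs φ).length := lt_of_lt_of_eq i.2 (mat_length _ _)
    rw [tA_lab, he i hi, Set.mem_ofPred_eq, List.getD_eq_getElem _ _ (by simpa using hi),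
      List.getElem_map]
  · intro i
    have hi : i.1 < (vs φ).length := lt_of_lt_of_eq i.2 (mat_length _ _)
    rw [tZ_lab, he i hi, Set.mem_ofPred_eq, List.getD_eq_getElem _ _ (by simpa using hi),
      List.getElem_map]

theorem one3_iff : ∀ l0 l1 l2 : Bool, one3 l0 l1 l2 = true ↔ ∃ r : Fin 3,
    l0 = decide (0 = r.1) ∧ l1 = decide (1 = r.1) ∧ l2 = decide (2 = r.1) := by decide

theorem confL_iff (φ : Fm) (v : ℕ) (a : Bool) (i : ℕ) (r : Fin 3) :
    confL φ v a.toNat (3 * i + r.1) = false ↔ ∀ s < 3, (litL φ (3 * i + s)).2 = v →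
      (a == (litL φ (3 * i + s)).1) = decide (s = r.1) := by
  have h1 : (3 * i + r.1) / 3 = i := by have := r.2; omega
  have h2 : (3 * i + r.1) % 3 = r.1 := by have := r.2; omega
  have h3 : decide (a.toNat = 1) = a := by cases a <;> rfl
  have h4 : ∀ s, s ∈ [0, 1, 2] ↔ s < 3 := by
    intro s
    simp only [List.mem_cons, List.not_mem_nil, or_false]
    omega
  have h5 : ∀ a b : Bool, (a == b) = decide (a = b) := by decide
  unfold confL
  rw [h1, h2, h3, ← Bool.not_eq_true, List.any_eq_true]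
  simp only [h4, Bool.and_eq_true, decide_eq_true_eq, Bool.not_eq_true',
    decide_eq_false_iff_not, not_exists, not_and, not_not, h5]

theorem red_iff (φ : Fm) (h : Bd13 φ) : X13 φ ↔ MM3 (red φ) := by
  rw [red_iso, main]
  have h3 : ∀ i : Fin φ.length, litL φ (3 * i.1) = φ[i].1 ∧ litL φ (3 * i.1 + 1) = φ[i].2.1 ∧
      litL φ (3 * i.1 + 2) = φ[i].2.2 := by
    intro i
    have h4 : φ.getD i.1 Q229.MS.d0 = φ[i] := List.getD_eq_getElem _ _ i.2
    have e1 : 3 * i.1 % 3 = 0 := by omega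
    have e2 : (3 * i.1 + 1) % 3 = 1 := by omega
    have e3 : (3 * i.1 + 2) % 3 = 2 := by omega
    have e4 : 3 * i.1 / 3 = i.1 := by omega
    have e5 : (3 * i.1 + 1) / 3 = i.1 := by omega
    have e6 : (3 * i.1 + 2) / 3 = i.1 := by omega
    unfold litL
    rw [e1, e2, e3, e4, e5, e6, h4]
    exact ⟨rfl, rfl, rfl⟩
  constructor
  · rintro ⟨τ, hτ⟩
    have h5 : ∀ i : Fin φ.length, ∃ r : Fin 3, _ := fun i =>
      (one3_iff _ _ _).1 (hτ φ[i] (List.getElem_mem _))
    choose ρ hρ using h5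
    refine ⟨fun x => τ x.1, ρ, fun x i => ?_⟩
    unfold conf
    rw [confL_iff]
    obtain ⟨e1, e2, e3⟩ := h3 i
    obtain ⟨f1, f2, f3⟩ := hρ i
    intro s hs hx
    have hs' : s = 0 ∨ s = 1 ∨ s = 2 := by omega
    rcases hs' with rfl | rfl | rfl
    · rw [add_zero, e1] at hx ⊢
      dsimp only
      rw [← hx]
      exact f1
    · rw [e2] at hx ⊢
      dsimp only
      rw [← hx]
      exact f2
    · rw [e3] at hx ⊢
      dsimp only
      rw [← hx]
      exact f3
  · rintro ⟨τ, ρ, hc⟩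
    refine ⟨fun x => if hx : x < 3 * φ.length then τ ⟨x, hx⟩ else false, fun c hc' => ?_⟩
    obtain ⟨i, hi, rfl⟩ := List.getElem_of_mem hc'
    rw [one3_iff]
    refine ⟨ρ ⟨i, hi⟩, ?_⟩
    obtain ⟨e1, e2, e3⟩ := h3 ⟨i, hi⟩
    have key : ∀ s (hs : s < 3), (τ ⟨(litL φ (3 * i + s)).2, litL_lt h ⟨i, hi⟩ ⟨s, hs⟩⟩ ==
        (litL φ (3 * i + s)).1) = decide (s = (ρ ⟨i, hi⟩).1) := by
      intro s hs
      have h5 := hc ⟨(litL φ (3 * i + s)).2, litL_lt h ⟨i, hi⟩ ⟨s, hs⟩⟩ ⟨i, hi⟩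
      unfold conf at h5
      rw [confL_iff] at h5
      exact h5 s hs rfl
    have g0 := litL_lt h ⟨i, hi⟩ 0
    have g1 := litL_lt h ⟨i, hi⟩ 1
    have g2 := litL_lt h ⟨i, hi⟩ 2
    have k0 := key 0 (by norm_num)
    have k1 := key 1 (by norm_num)
    have k2 := key 2 (by norm_num)
    have f0 : litL φ (3 * i + (0 : Fin 3).1) = φ[i].1 := e1
    have f0' : litL φ (3 * i + 0) = φ[i].1 := e1
    have f1 : litL φ (3 * i + (1 : Fin 3).1) = φ[i].2.1 := e2
    have f1' : litL φ (3 * i + 1) = φ[i].2.1 := e2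
    have f2 : litL φ (3 * i + (2 : Fin 3).1) = φ[i].2.2 := e3
    have f2' : litL φ (3 * i + 2) = φ[i].2.2 := e3
    simp only [f0, f1, f2] at g0 g1 g2
    simp only [f0', f1', f2'] at k0 k1 k2
    simp only [dif_pos g0, dif_pos g1, dif_pos g2]
    exact ⟨k0, k1, k2⟩

theorem red_poly : Poly red := by
  have hm : UPoly (fun φ : Fm => φ.length) := UPoly.length Poly.id
  have h3 := (UPoly.const (α := Fm) 3).mul hm
  have h0 : Poly vs :=
    Poly.append (block_poly 0 h3 (UPoly.const 2)) (Poly.append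
      (block_poly 1 (h3.add (UPoly.const 1)) (UPoly.const 1)) (Poly.append
      (block_poly 2 hm (UPoly.const 3)) (Poly.append
      (block_poly 3 (hm.add (UPoly.const 1)) (UPoly.const 1))
      (Poly.append (block_poly 4 ((UPoly.const 2).mul h3) h3)
      (block_poly 5 (UPoly.const 4) (UPoly.const 1))))))
  refine Poly.pair (mat_poly (adj := fun (φ : Fm) => adjL φ) h0 ?_) (Poly.pair
    (pmap (F := fun _ z => tA z) h0 ?_) (pmap (F := fun φ z => tZ φ z) h0 ?_))
  · unfold adjL r1 r2 r3 r4 r5 r6 confL litL Q229.MS.d0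
    fun_prop
  · unfold tA
    fun_prop
  · unfold tZ
    fun_prop

end Q229.MM
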